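import Pool.Agent.Helper28.SQ.Defs

/-! # Project SQ, module SQ-6: the linear equation in the basis of eigenvectors -/

set_option autoImplicit false

open Polynomial

namespace Pool.Agent.Helper28.SQ

private lemma orth' {a : Fin 4 → ℤ} {μ : Fin 4 → ℝ} {V : Matrix (Fin 4) (Fin 4) ℝ}
    (h : Eig a μ V) : V.transpose * V = 1 := mul_eq_one_comm.mp h.orth

private lemma map_charmatrix_eq {a : Fin 4 → ℤ} {μ : Fin 4 → ℝ} {V : Matrix (Fin 4) (Fin 4) ℝ}
    (h : Eig a μ V) (x : ℝ) :
    (aeval x : ℤ[X] →ₐ[ℤ] ℝ).mapMatrix (pathM a).charmatrix =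
      V.transpose * Matrix.diagonal (fun j => x - μ j) * V := by
  have h1 : (aeval x : ℤ[X] →ₐ[ℤ] ℝ).mapMatrix (pathM a).charmatrix =
      x • (1 : Matrix (Fin 4) (Fin 4) ℝ) - rM (pathM a) := by
    ext i j
    simp only [AlgHom.mapMatrix_apply, Matrix.map_apply, Matrix.charmatrix_apply, map_sub,
      Matrix.sub_apply, Matrix.smul_apply, rM, aeval_C, Matrix.diagonal_apply, Matrix.one_apply]
    split_ifs <;> simp
  have h2 : Matrix.diagonal (fun j => x - μ j) =
      x • (1 : Matrix (Fin 4) (Fin 4) ℝ) - Matrix.diagonal μ := by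
    ext i j
    simp only [Matrix.sub_apply, Matrix.smul_apply, Matrix.diagonal_apply, Matrix.one_apply]
    split_ifs <;> simp
  rw [h1, h2, Matrix.mul_sub, Matrix.sub_mul, Matrix.mul_assoc V.transpose (Matrix.diagonal μ) V,
    ← h.eig, ← Matrix.mul_assoc, orth' h, Matrix.one_mul]
  simp [orth' h]

private lemma det_mul_det {a : Fin 4 → ℤ} {μ : Fin 4 → ℝ} {V : Matrix (Fin 4) (Fin 4) ℝ}
    (h : Eig a μ V) : V.transpose.det * V.det = 1 := by
  rw [← Matrix.det_mul, orth' h, Matrix.det_one]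

private lemma adj_conj {a : Fin 4 → ℤ} {μ : Fin 4 → ℝ} {V : Matrix (Fin 4) (Fin 4) ℝ}
    (h : Eig a μ V) (D : Matrix (Fin 4) (Fin 4) ℝ) :
    (V.transpose * D * V).adjugate = V.transpose * D.adjugate * V := by
  have hV : V.adjugate = V.det • V.transpose := by
    calc V.adjugate = (V.transpose * V) * V.adjugate := by rw [orth' h, Matrix.one_mul]
      _ = V.transpose * (V * V.adjugate) := by rw [Matrix.mul_assoc]
      _ = V.det • V.transpose := by rw [Matrix.mul_adjugate]; simp
  have hW : V.transpose.adjugate = V.transpose.det • V := by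
    calc V.transpose.adjugate = (V * V.transpose) * V.transpose.adjugate := by
          rw [h.orth, Matrix.one_mul]
      _ = V * (V.transpose * V.transpose.adjugate) := by rw [Matrix.mul_assoc]
      _ = V.transpose.det • V := by rw [Matrix.mul_adjugate]; simp
  rw [Matrix.adjugate_mul_distrib, Matrix.adjugate_mul_distrib, hV, hW, Matrix.mul_smul,
    Matrix.mul_smul, Matrix.smul_mul, smul_smul, det_mul_det h, one_smul, Matrix.mul_assoc]

theorem aeval_charpoly {a : Fin 4 → ℤ} {μ : Fin 4 → ℝ} {V : Matrix (Fin 4) (Fin 4) ℝ}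
    (h : Eig a μ V) (x : ℝ) : aeval x (pathM a).charpoly = ∏ j, (x - μ j) := by
  rw [Matrix.charpoly, AlgHom.map_det, map_charmatrix_eq h x, Matrix.det_mul, Matrix.det_mul,
    Matrix.det_diagonal, mul_right_comm, det_mul_det h, one_mul]

theorem aeval_tra {a : Fin 4 → ℤ} {μ : Fin 4 → ℝ} {V : Matrix (Fin 4) (Fin 4) ℝ}
    (h : Eig a μ V) (G : Matrix (Fin 4) (Fin 4) ℤ) (i : Fin 4) :
    aeval (μ i) (tra (pathM a) G) =
      (∏ j ∈ Finset.univ.erase i, (μ i - μ j)) * (V * rM G * V.transpose) i i := by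
  have hadj : ∀ k l, aeval (μ i) ((pathM a).charmatrix.adjugate k l) =
      (∏ j ∈ Finset.univ.erase i, (μ i - μ j)) * (V i k * V i l) := by
    intro k l
    have e1 : aeval (μ i) ((pathM a).charmatrix.adjugate k l) =
        ((aeval (μ i) : ℤ[X] →ₐ[ℤ] ℝ).mapMatrix ((pathM a).charmatrix.adjugate)) k l := by
      simp [AlgHom.mapMatrix_apply]
    rw [e1, AlgHom.map_adjugate, map_charmatrix_eq h, adj_conj h, Matrix.adjugate_diagonal,
      Matrix.mul_apply, Finset.sum_eq_single i]
    · rw [Matrix.mul_diagonal, Matrix.transpose_apply]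
      ring
    · intro b _ hb
      rw [Matrix.mul_diagonal]
      have : ∏ j ∈ Finset.univ.erase b, (μ i - μ j) = 0 :=
        Finset.prod_eq_zero (Finset.mem_erase.mpr ⟨Ne.symm hb, Finset.mem_univ i⟩) (sub_self _)
      rw [this]
      ring
    · intro hi
      exact absurd (Finset.mem_univ i) hi
  unfold tra
  rw [map_sum]
  simp only [map_sum, map_mul, aeval_C, hadj]
  rw [Matrix.mul_apply, Finset.mul_sum]
  simp only [Matrix.mul_apply, Matrix.transpose_apply, Finset.sum_mul, Finset.mul_sum, rM,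
    Matrix.map_apply]
  rw [Finset.sum_comm]
  refine Finset.sum_congr rfl fun l _ => Finset.sum_congr rfl fun k _ => ?_
  simp only [algebraMap_int_eq, eq_intCast]
  ring

end Pool.Agent.Helper28.SQ
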