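import Pool.Agent.Helper28.SQ.Defs

/-! # Project SQ, module SQ-1: anticommuting symmetric signed permutation matrices -/

set_option autoImplicit false

open Polynomial

namespace Pool.Agent.Helper28.SQ

/-- the step over general index types -/
private theorem cliff_step {n t : ℕ} (γ : Fin t → Matrix (Fin n) (Fin n) ℤ)
    (hs : ∀ i, (γ i).IsSymm) (hq : ∀ i, γ i * γ i = 1)
    (ha : ∀ i j, i ≠ j → γ i * γ j = -(γ j * γ i)) :
    ∃ δ : Fin (t + 1) → Matrix (Fin n ⊕ Fin n) (Fin n ⊕ Fin n) ℤ,
      (∀ i, (δ i).IsSymm) ∧ (∀ i, δ i * δ i = 1) ∧ ∀ i j, i ≠ j → δ i * δ j = -(δ j * δ i) := by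
  refine ⟨Fin.snoc (α := fun _ => Matrix (Fin n ⊕ Fin n) (Fin n ⊕ Fin n) ℤ)
    (fun i => Matrix.fromBlocks (γ i) 0 0 (-γ i)) (Matrix.fromBlocks 0 1 1 0), ?_, ?_, ?_⟩
  · intro i
    refine Fin.lastCases ?_ (fun i => ?_) i
    · simp only [Fin.snoc_last, Matrix.IsSymm, Matrix.fromBlocks_transpose, Matrix.transpose_zero,
        Matrix.transpose_one]
    · simp only [Fin.snoc_castSucc, Matrix.IsSymm, Matrix.fromBlocks_transpose,
        Matrix.transpose_zero, Matrix.transpose_neg]
      rw [(hs i).eq]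
  · intro i
    refine Fin.lastCases ?_ (fun i => ?_) i
    · simp [Matrix.fromBlocks_multiply]
    · simp [Matrix.fromBlocks_multiply, hq]
  · intro i j
    refine Fin.lastCases ?_ (fun i => ?_) i
    · refine Fin.lastCases ?_ (fun j => ?_) j
      · intro h
        exact absurd rfl h
      · intro _
        simp [Matrix.fromBlocks_multiply, Matrix.fromBlocks_neg]
    · refine Fin.lastCases ?_ (fun j => ?_) j
      · intro _
        simp [Matrix.fromBlocks_multiply, Matrix.fromBlocks_neg]
      · intro h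
        have hij : i ≠ j := fun e => h (by rw [e])
        simp only [Fin.snoc_castSucc, Matrix.fromBlocks_multiply, Matrix.fromBlocks_neg]
        simp [ha i j hij]

theorem exists_cliff (t : ℕ) : ∃ (n : ℕ) (γ : Fin t → Matrix (Fin n) (Fin n) ℤ), 0 < n ∧
    (∀ i, (γ i).IsSymm) ∧ (∀ i, γ i * γ i = 1) ∧ ∀ i j, i ≠ j → γ i * γ j = -(γ j * γ i) := by
  induction t with
  | zero =>
    exact ⟨1, fun i => i.elim0, one_pos, fun i => i.elim0, fun i => i.elim0, fun i => i.elim0⟩
  | succ t ih =>
    obtain ⟨n, γ, hn, hs, hq, ha⟩ := ih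
    obtain ⟨δ, hs', hq', ha'⟩ := cliff_step γ hs hq ha
    refine ⟨n + n, fun i => Matrix.reindex finSumFinEquiv finSumFinEquiv (δ i), by omega,
      ?_, ?_, ?_⟩
    · intro i
      have := (hs' i).eq
      simp only [Matrix.IsSymm, Matrix.transpose_reindex]
      rw [this]
    · intro i
      have := hq' i
      simp only [Matrix.reindex_apply, Matrix.submatrix_mul_equiv]
      rw [this, Matrix.submatrix_one_equiv]
    · intro i j hij
      have := ha' i j hij
      simp only [Matrix.reindex_apply, Matrix.submatrix_mul_equiv]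
      rw [this]
      rfl

end Pool.Agent.Helper28.SQ
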