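import Mathlib

/-! # Project SQ, module SQ-8: bounds for the coefficients -/

set_option autoImplicit false

namespace Pool.Agent.Helper28.SQ

private lemma ratio_bounds (D1 D2 D3 N1 N2 N3 F c : ℝ) (h1 : 0 < D1) (h2 : 0 < D2) (h3 : 0 < D3)
    (a1 : D1 ≤ N1) (a2 : D2 ≤ N2) (a3 : D3 ≤ N3)
    (b1 : N1 ≤ 2 * D1) (b2 : N2 ≤ 2 * D2) (b3 : N3 ≤ 2 * D3) (hF : 0 ≤ F)
    (h : D1 * D2 * D3 * c = F * (N1 * N2 * N3)) : F ≤ c ∧ c ≤ 8 * F := by
  have hP : 0 < D1 * D2 * D3 := by positivity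
  have hlo : D1 * D2 * D3 ≤ N1 * N2 * N3 := by
    apply mul_le_mul (mul_le_mul a1 a2 h2.le (h1.le.trans a1)) a3 h3.le
    exact mul_nonneg (h1.le.trans a1) (h2.le.trans a2)
  have hup : N1 * N2 * N3 ≤ 8 * (D1 * D2 * D3) := by
    have : N1 * N2 * N3 ≤ (2 * D1) * (2 * D2) * (2 * D3) := by
      apply mul_le_mul (mul_le_mul b1 b2 (h2.le.trans a2) (by linarith)) b3 (h3.le.trans a3)
      positivity
    linarith
  constructor
  · have : D1 * D2 * D3 * F ≤ D1 * D2 * D3 * c := by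
      rw [h]
      nlinarith [mul_le_mul_of_nonneg_left hlo hF]
    exact le_of_mul_le_mul_left this hP
  · have : D1 * D2 * D3 * c ≤ D1 * D2 * D3 * (8 * F) := by
      rw [h]
      nlinarith [mul_le_mul_of_nonneg_left hup hF]
    exact le_of_mul_le_mul_left this hP

private lemma final_bounds (a b m g F c : ℝ) (hg : g = b - a) (h100 : 100 ≤ g)
    (hm : |m - (a + b) / 2| ≤ 3) (hF : F = (m - a) * (b - m)) (h : 0 ≤ F → F ≤ c ∧ c ≤ 8 * F) :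
    g ^ 2 / 4 - 9 ≤ c ∧ c ≤ 2 * g ^ 2 := by
  have e : F = g ^ 2 / 4 - (m - (a + b) / 2) ^ 2 := by rw [hF, hg]; ring
  have hs : (m - (a + b) / 2) ^ 2 ≤ 9 := by
    have h' := abs_le.1 hm
    nlinarith [h'.1, h'.2]
  have hF0 : 0 ≤ F := by rw [e]; nlinarith
  obtain ⟨h1, h2⟩ := h hF0
  constructor
  · linarith
  · nlinarith [sq_nonneg (m - (a + b) / 2)]

theorem coef_bounds (l : Fin 5 → ℝ) (μ c g : Fin 4 → ℝ)
    (hg : ∀ i : Fin 4, g i = l i.succ - l i.castSucc) (h100 : ∀ i, 100 ≤ g i)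
    (hμ : ∀ i : Fin 4, |μ i - (l i.castSucc + l i.succ) / 2| ≤ 3)
    (hc : ∀ i, (∏ j ∈ Finset.univ.erase i, (μ i - μ j)) * c i = -∏ j, (μ i - l j)) (i : Fin 4) :
    g i ^ 2 / 4 - 9 ≤ c i ∧ c i ≤ 2 * g i ^ 2 := by
  have g0 : g 0 = l 1 - l 0 := hg 0
  have g1 : g 1 = l 2 - l 1 := hg 1
  have g2 : g 2 = l 3 - l 2 := hg 2
  have g3 : g 3 = l 4 - l 3 := hg 3
  have m0 : |μ 0 - (l 0 + l 1) / 2| ≤ 3 := hμ 0
  have m1 : |μ 1 - (l 1 + l 2) / 2| ≤ 3 := hμ 1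
  have m2 : |μ 2 - (l 2 + l 3) / 2| ≤ 3 := hμ 2
  have m3 : |μ 3 - (l 3 + l 4) / 2| ≤ 3 := hμ 3
  have q0 := h100 0
  have q1 := h100 1
  have q2 := h100 2
  have q3 := h100 3
  have n0 := abs_le.1 m0
  have n1 := abs_le.1 m1
  have n2 := abs_le.1 m2
  have n3 := abs_le.1 m3
  have hpl : ∀ x : ℝ, ∏ j, (x - l j) = (x - l 0) * (x - l 1) * (x - l 2) * (x - l 3) * (x - l 4) := by
    intro x
    rw [Fin.prod_univ_five]
  have hci := hc i
  rw [hpl] at hci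
  fin_cases i
  · have he : (Finset.univ.erase (0 : Fin 4)) = {1, 2, 3} := by decide
    have hp : ∏ j ∈ Finset.univ.erase (0 : Fin 4), (μ 0 - μ j)
        = (μ 0 - μ 1) * (μ 0 - μ 2) * (μ 0 - μ 3) := by
      rw [he, Finset.prod_insert (by decide), Finset.prod_insert (by decide),
        Finset.prod_singleton]; ring
    simp only [Fin.zero_eta] at hci ⊢
    rw [hp] at hci
    refine final_bounds (l 0) (l 1) (μ 0) (g 0) _ _ g0 q0 m0 rfl (fun hF => ?_)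
    refine ratio_bounds (μ 1 - μ 0) (μ 2 - μ 0) (μ 3 - μ 0) (l 2 - μ 0) (l 3 - μ 0) (l 4 - μ 0)
      _ _ ?_ ?_ ?_ ?_ ?_ ?_ ?_ ?_ ?_ hF ?_
    all_goals linarith
  · have he : (Finset.univ.erase (1 : Fin 4)) = {0, 2, 3} := by decide
    have hp : ∏ j ∈ Finset.univ.erase (1 : Fin 4), (μ 1 - μ j)
        = (μ 1 - μ 0) * (μ 1 - μ 2) * (μ 1 - μ 3) := by
      rw [he, Finset.prod_insert (by decide), Finset.prod_insert (by decide),
        Finset.prod_singleton]; ring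
    simp only [Fin.mk_one] at hci ⊢
    rw [hp] at hci
    refine final_bounds (l 1) (l 2) (μ 1) (g 1) _ _ g1 q1 m1 rfl (fun hF => ?_)
    refine ratio_bounds (μ 1 - μ 0) (μ 2 - μ 1) (μ 3 - μ 1) (μ 1 - l 0) (l 3 - μ 1) (l 4 - μ 1)
      _ _ ?_ ?_ ?_ ?_ ?_ ?_ ?_ ?_ ?_ hF ?_
    all_goals linarith
  · have he : (Finset.univ.erase (2 : Fin 4)) = {0, 1, 3} := by decide
    have hp : ∏ j ∈ Finset.univ.erase (2 : Fin 4), (μ 2 - μ j)
        = (μ 2 - μ 0) * (μ 2 - μ 1) * (μ 2 - μ 3) := by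
      rw [he, Finset.prod_insert (by decide), Finset.prod_insert (by decide),
        Finset.prod_singleton]; ring
    have hi : (⟨2, by omega⟩ : Fin 4) = 2 := rfl
    simp only [Fin.reduceFinMk] at hci ⊢
    rw [hp] at hci
    refine final_bounds (l 2) (l 3) (μ 2) (g 2) _ _ g2 q2 m2 rfl (fun hF => ?_)
    refine ratio_bounds (μ 2 - μ 0) (μ 2 - μ 1) (μ 3 - μ 2) (μ 2 - l 0) (μ 2 - l 1) (l 4 - μ 2)
      _ _ ?_ ?_ ?_ ?_ ?_ ?_ ?_ ?_ ?_ hF ?_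
    all_goals linarith
  · have he : (Finset.univ.erase (3 : Fin 4)) = {0, 1, 2} := by decide
    have hp : ∏ j ∈ Finset.univ.erase (3 : Fin 4), (μ 3 - μ j)
        = (μ 3 - μ 0) * (μ 3 - μ 1) * (μ 3 - μ 2) := by
      rw [he, Finset.prod_insert (by decide), Finset.prod_insert (by decide),
        Finset.prod_singleton]; ring
    simp only [Fin.reduceFinMk] at hci ⊢
    rw [hp] at hci
    refine final_bounds (l 3) (l 4) (μ 3) (g 3) _ _ g3 q3 m3 rfl (fun hF => ?_)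
    refine ratio_bounds (μ 3 - μ 0) (μ 3 - μ 1) (μ 3 - μ 2) (μ 3 - l 0) (μ 3 - l 1) (μ 3 - l 2)
      _ _ ?_ ?_ ?_ ?_ ?_ ?_ ?_ ?_ ?_ hF ?_
    all_goals linarith

end Pool.Agent.Helper28.SQ
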