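import Pool.Agent.Helper28.SQ.Cliff

/-! # Project SQ, module SQ-2: the Clifford criterion -/

set_option autoImplicit false

open Polynomial

namespace Pool.Agent.Helper28.SQ

open scoped Kronecker

/-- The determinant of a bordered matrix. -/
theorem crit_det {ι κ : Type} [Fintype ι] [DecidableEq ι] [Fintype κ] [DecidableEq κ]
    {R : Type} [CommRing R] (s Q g : R) (Cm Z : Matrix κ ι R) (Y : Matrix κ κ R)
    (hYZ : Y * Z = Q • Cm) (hCZ : Cm.transpose * Z = g • (1 : Matrix ι ι R)) :
    (Matrix.fromBlocks (s • (1 : Matrix ι ι R)) (-Cm.transpose) (-Cm) Y).det *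
      Q ^ (Fintype.card ι) = (s * Q - g) ^ (Fintype.card ι) * Y.det := by
  have h : Matrix.fromBlocks (s • (1 : Matrix ι ι R)) (-Cm.transpose) (-Cm) Y *
      Matrix.fromBlocks (Q • (1 : Matrix ι ι R)) 0 Z 1 =
      Matrix.fromBlocks ((s * Q - g) • (1 : Matrix ι ι R)) (-Cm.transpose) 0 Y := by
    rw [Matrix.fromBlocks_multiply]
    congr 1
    · rw [Matrix.neg_mul, hCZ, Matrix.smul_mul, Matrix.one_mul, smul_smul, sub_smul,
        ← sub_eq_add_neg]
    · simp
    · rw [hYZ]; simp
    · simp
  have h2 := congrArg Matrix.det h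
  rw [Matrix.det_mul, Matrix.det_fromBlocks_zero₁₂, Matrix.det_fromBlocks_zero₂₁,
    Matrix.det_one, mul_one, Matrix.det_smul, Matrix.det_smul, Matrix.det_one, mul_one,
    mul_one] at h2
  exact h2

/-- The anticommuting part: `N i * N j + N j * N i = 2 G i j`. -/
theorem crit_anti {ι : Type} {t n : ℕ} {R : Type} [CommRing R] (η : Fin t → ι → R)
    (γ : Fin t → Matrix (Fin n) (Fin n) R) (hsq : ∀ i, γ i * γ i = 1)
    (hanti : ∀ i j, i ≠ j → γ i * γ j = -(γ j * γ i)) (i j : ι) :
    (∑ m, η m i • γ m) * (∑ m, η m j • γ m) + (∑ m, η m j • γ m) * (∑ m, η m i • γ m) =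
      (2 * ∑ m, η m i * η m j) • (1 : Matrix (Fin n) (Fin n) R) := by
  have e1 : (∑ m, η m i • γ m) * (∑ m, η m j • γ m) =
      ∑ m, ∑ m', (η m i * η m' j) • (γ m * γ m') := by
    rw [Finset.sum_mul_sum]
    refine Finset.sum_congr rfl fun m _ => Finset.sum_congr rfl fun m' _ => ?_
    rw [Matrix.smul_mul, Matrix.mul_smul, smul_smul]
  have e2 : (∑ m, η m j • γ m) * (∑ m, η m i • γ m) =
      ∑ m, ∑ m', (η m i * η m' j) • (γ m' * γ m) := by
    rw [Finset.sum_mul_sum, Finset.sum_comm]
    refine Finset.sum_congr rfl fun m _ => Finset.sum_congr rfl fun m' _ => ?_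
    rw [Matrix.smul_mul, Matrix.mul_smul, smul_smul, mul_comm (η m i)]
  rw [e1, e2, ← Finset.sum_add_distrib]
  have e3 : ∀ m : Fin t, ∑ m', (η m i * η m' j) • (γ m * γ m') +
      ∑ m', (η m i * η m' j) • (γ m' * γ m) =
      (2 * (η m i * η m j)) • (1 : Matrix (Fin n) (Fin n) R) := by
    intro m
    rw [← Finset.sum_add_distrib, Finset.sum_eq_single m]
    · rw [hsq, ← add_smul, ← two_mul]
    · intro m' _ hm'
      rw [hanti m m' (Ne.symm hm'), smul_neg, neg_add_cancel]
    · intro h
      exact absurd (Finset.mem_univ _) h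
  rw [Finset.sum_congr rfl fun m _ => e3 m, ← Finset.sum_smul, ← Finset.mul_sum]

/-- The bordered matrix with the blocks `d`, `A ⊗ 1` and `∑ η_m ⊗ γ_m`. -/
theorem exists_bordered {ι : Type} [Fintype ι] [DecidableEq ι] (A : Matrix ι ι ℤ)
    (hA : A.IsSymm) (d : ℤ) {G : Matrix ι ι ℤ} (hG : SoS G) :
    ∃ (s n : ℕ) (M : Matrix (Fin n) (Fin n) ℤ), 0 < s ∧ M.IsSymm ∧
      M.charpoly = ((X - C d) * A.charpoly - tra A G) ^ s := by
  classical
  obtain ⟨t, η, hη⟩ := hG
  obtain ⟨n, γ, hn, hsym, hsq, hanti⟩ := exists_cliff t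
  -- the border
  let B : Matrix (ι × Fin n) (Fin n) ℤ := fun p b => ∑ m, η m p.1 * γ m p.2 b
  let M : Matrix (Fin n ⊕ (ι × Fin n)) (Fin n ⊕ (ι × Fin n)) ℤ :=
    Matrix.fromBlocks (d • (1 : Matrix (Fin n) (Fin n) ℤ)) B.transpose B
      (A ⊗ₖ (1 : Matrix (Fin n) (Fin n) ℤ))
  -- the objects over the polynomials
  let ηX : Fin t → ι → ℤ[X] := fun m i => C (η m i)
  let γX : Fin t → Matrix (Fin n) (Fin n) ℤ[X] := fun m => (γ m).map C
  let N : ι → Matrix (Fin n) (Fin n) ℤ[X] := fun i => ∑ m, ηX m i • γX m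
  let Cm : Matrix (ι × Fin n) (Fin n) ℤ[X] := fun p b => N p.1 p.2 b
  let Y : Matrix (ι × Fin n) (ι × Fin n) ℤ[X] :=
    A.charmatrix ⊗ₖ (1 : Matrix (Fin n) (Fin n) ℤ[X])
  let adj : Matrix ι ι ℤ[X] := A.charmatrix.adjugate
  let Z : Matrix (ι × Fin n) (Fin n) ℤ[X] := (adj ⊗ₖ (1 : Matrix (Fin n) (Fin n) ℤ[X])) * Cm
  have hsqX : ∀ i, γX i * γX i = 1 := by
    intro i
    have := congrArg (fun W : Matrix (Fin n) (Fin n) ℤ => W.map (C : ℤ →+* ℤ[X])) (hsq i)
    simp only [Matrix.map_mul] at this
    rw [Matrix.map_one _ (map_zero _) (map_one _)] at this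
    exact this
  have hantiX : ∀ i j, i ≠ j → γX i * γX j = -(γX j * γX i) := by
    intro i j hij
    have := congrArg (fun W : Matrix (Fin n) (Fin n) ℤ => W.map (C : ℤ →+* ℤ[X])) (hanti i j hij)
    simp only [Matrix.map_mul] at this
    rw [Matrix.map_neg _ (by intro a; exact map_neg _ a), Matrix.map_mul] at this
    exact this
  have hNsym : ∀ i, (N i).transpose = N i := by
    intro i
    simp only [N, Matrix.transpose_sum, Matrix.transpose_smul]
    refine Finset.sum_congr rfl fun m _ => ?_
    congr 1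
    show ((γ m).map C).transpose = (γ m).map C
    rw [← Matrix.transpose_map, (hsym m).eq]
  have hGij : ∀ i j, G i j = ∑ m, η m i * η m j := by
    intro i j
    rw [hη, Matrix.sum_apply]
    rfl
  have hadj : ∀ i j, adj i j = adj j i := by
    intro i j
    have h1 : A.charmatrix.transpose = A.charmatrix := by
      rw [← Matrix.charmatrix_transpose, hA.eq]
    have h2 := Matrix.adjugate_transpose A.charmatrix
    rw [h1] at h2
    have h3 := congrFun (congrFun h2 i) j
    rw [Matrix.transpose_apply] at h3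
    exact h3.symm
  have hCZ0 : Cm.transpose * Z = ∑ i, ∑ j, adj i j • (N i * N j) := by
    ext a b : 1
    rw [Matrix.mul_apply, Fintype.sum_prod_type, Matrix.sum_apply]
    refine Finset.sum_congr rfl fun i _ => ?_
    rw [Matrix.sum_apply]
    have : ∀ c : Fin n, Z (i, c) b = ∑ j, adj i j * N j c b := by
      intro c
      simp only [Z, Cm]
      rw [Matrix.mul_apply, Fintype.sum_prod_type]
      refine Finset.sum_congr rfl fun j _ => ?_
      rw [Finset.sum_eq_single c]
      · rw [Matrix.kroneckerMap_apply, Matrix.one_apply_eq, mul_one]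
      · intro e _ he
        rw [Matrix.kroneckerMap_apply, Matrix.one_apply_ne (Ne.symm he), mul_zero, zero_mul]
      · intro h
        exact absurd (Finset.mem_univ _) h
    calc ∑ c, Cm.transpose a (i, c) * Z (i, c) b
        = ∑ c, ∑ j, adj i j * ((N i) a c * N j c b) := by
          refine Finset.sum_congr rfl fun c _ => ?_
          rw [this c, Finset.mul_sum]
          refine Finset.sum_congr rfl fun j _ => ?_
          have hs : Cm.transpose a (i, c) = N i a c := by
            show N i c a = N i a c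
            exact congrFun (congrFun (hNsym i) a) c
          rw [hs]
          ring
      _ = ∑ j, (adj i j • (N i * N j)) a b := by
          rw [Finset.sum_comm]
          refine Finset.sum_congr rfl fun j _ => ?_
          rw [Matrix.smul_apply, Matrix.mul_apply, smul_eq_mul, Finset.mul_sum]
  have hCZ : Cm.transpose * Z = tra A G • (1 : Matrix (Fin n) (Fin n) ℤ[X]) := by
    rw [hCZ0]
    have h2 : (2 : ℤ[X]) • (∑ i, ∑ j, adj i j • (N i * N j)) =
        (2 : ℤ[X]) • (tra A G • (1 : Matrix (Fin n) (Fin n) ℤ[X])) := by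
      have e1 : (2 : ℤ[X]) • (∑ i, ∑ j, adj i j • (N i * N j)) =
          ∑ i, ∑ j, adj i j • (N i * N j + N j * N i) := by
        have e0 : ∑ i, ∑ j, adj i j • (N i * N j) = ∑ i, ∑ j, adj i j • (N j * N i) := by
          rw [Finset.sum_comm]
          refine Finset.sum_congr rfl fun i _ => Finset.sum_congr rfl fun j _ => ?_
          rw [hadj j i]
        simp only [smul_add, Finset.sum_add_distrib]
        rw [← e0, two_smul]
      rw [e1]
      have e2 : ∀ i j, adj i j • (N i * N j + N j * N i) =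
          (adj i j * (2 * C (G i j))) • (1 : Matrix (Fin n) (Fin n) ℤ[X]) := by
        intro i j
        have := crit_anti ηX γX hsqX hantiX i j
        simp only [N]
        rw [this, smul_smul, hGij]
        congr 3
        rw [map_sum]
        refine Finset.sum_congr rfl fun m _ => ?_
        rw [map_mul]
      rw [Finset.sum_congr rfl fun i _ => Finset.sum_congr rfl fun j _ => e2 i j]
      simp only [← Finset.sum_smul]
      rw [smul_smul]
      congr 1
      unfold tra
      rw [Finset.mul_sum]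
      refine Finset.sum_congr rfl fun i _ => ?_
      rw [Finset.mul_sum]
      refine Finset.sum_congr rfl fun j _ => ?_
      ring
    have h20 : (2 : ℤ[X]) ≠ 0 := two_ne_zero
    ext a b : 1
    have h3 := congrFun (congrFun h2 a) b
    rw [Matrix.smul_apply, Matrix.smul_apply, smul_eq_mul, smul_eq_mul] at h3
    exact mul_left_cancel₀ h20 h3
  have hYZ : Y * Z = A.charpoly • Cm := by
    show Y * ((adj ⊗ₖ (1 : Matrix (Fin n) (Fin n) ℤ[X])) * Cm) = _
    rw [← Matrix.mul_assoc, ← Matrix.mul_kronecker_mul, Matrix.mul_adjugate, Matrix.mul_one,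
      Matrix.smul_kronecker, Matrix.one_kronecker_one, Matrix.smul_mul, Matrix.one_mul]
    rfl
  have hYdet : Y.det = A.charpoly ^ n := by
    rw [Matrix.det_kronecker, Matrix.det_one, one_pow, mul_one, Fintype.card_fin]
    rfl
  have hchar : M.charmatrix = Matrix.fromBlocks ((X - C d) • (1 : Matrix (Fin n) (Fin n) ℤ[X]))
      (-Cm.transpose) (-Cm) Y := by
    have hCB : ∀ p b, C (B p b) = Cm p b := by
      intro p b
      simp only [B, Cm, N, ηX, γX]
      rw [map_sum, Matrix.sum_apply]
      refine Finset.sum_congr rfl fun m _ => ?_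
      rw [map_mul, Matrix.smul_apply, Matrix.map_apply, smul_eq_mul]
    rw [Matrix.charmatrix_fromBlocks]
    congr 1
    · ext a b : 1
      rw [Matrix.charmatrix, Matrix.sub_apply, Matrix.smul_apply, Matrix.one_apply,
        RingHom.mapMatrix_apply, Matrix.map_apply, Matrix.smul_apply, Matrix.one_apply,
        Matrix.scalar_apply, Matrix.diagonal_apply]
      split_ifs <;> simp
    · ext a b : 1
      rw [Matrix.neg_apply, Matrix.neg_apply, Matrix.map_apply, Matrix.transpose_apply,
        Matrix.transpose_apply, hCB]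
    · ext a b : 1
      rw [Matrix.neg_apply, Matrix.neg_apply, Matrix.map_apply, hCB]
    · ext ⟨i, a⟩ ⟨j, b⟩ : 1
      simp only [Y]
      rw [Matrix.kroneckerMap_apply, Matrix.charmatrix_apply, Matrix.charmatrix_apply,
        Matrix.kroneckerMap_apply, Matrix.one_apply, Matrix.one_apply, Matrix.diagonal_apply,
        Matrix.diagonal_apply]
      by_cases hab : a = b
      · subst hab
        by_cases hij : i = j
        · subst hij
          simp
        · have : ((i, a) : ι × Fin n) ≠ (j, a) := by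
            intro h
            exact hij (Prod.mk.inj h).1
          simp [hij]
      · have : ((i, a) : ι × Fin n) ≠ (j, b) := by
          intro h
          exact hab (Prod.mk.inj h).2
        simp [hab]
  have hQ : A.charpoly ≠ 0 := A.charpoly_monic.ne_zero
  have hMpoly : M.charpoly = ((X - C d) * A.charpoly - tra A G) ^ n := by
    have h := crit_det (X - C d) A.charpoly (tra A G) Cm Z Y hYZ hCZ
    rw [← hchar, hYdet, Fintype.card_fin] at h
    exact mul_right_cancel₀ (pow_ne_zero _ hQ) h
  have hMsym : M.IsSymm := by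
    refine Matrix.IsSymm.fromBlocks ?_ ?_ ?_
    · exact (Matrix.isSymm_one).smul d
    · exact Matrix.transpose_transpose B
    · ext ⟨i, a⟩ ⟨j, b⟩
      rw [Matrix.transpose_apply, Matrix.kroneckerMap_apply, Matrix.kroneckerMap_apply,
        hA.apply, Matrix.one_apply, Matrix.one_apply]
      simp only [eq_comm]
  refine ⟨n, Fintype.card (Fin n ⊕ (ι × Fin n)),
    Matrix.reindex (Fintype.equivFin _) (Fintype.equivFin _) M, hn, ?_, ?_⟩
  · exact hMsym.submatrix _
  · rw [Matrix.charpoly_reindex, hMpoly]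

end Pool.Agent.Helper28.SQ
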