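import Mathlib

/-!
# Project SQ (MP_1f08eb_nt): definitions

Quintics with well separated roots are minimal polynomials of symmetric integer matrices.
-/

set_option autoImplicit false

open Polynomial

namespace Pool.Agent.Helper28.SQ

/-- `P` is the minimal polynomial of a symmetric integer matrix (of any size). -/
def IsMP (P : ℤ[X]) : Prop :=
  ∃ (n : ℕ) (A : Matrix (Fin n) (Fin n) ℤ), A.IsSymm ∧
    minpoly ℚ (A.map (Int.cast : ℤ → ℚ)) = P.map (Int.castRingHom ℚ)

/-- sums of squares of integral linear forms -/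
def SoS {ι : Type} (G : Matrix ι ι ℤ) : Prop :=
  ∃ (t : ℕ) (η : Fin t → ι → ℤ), G = ∑ m, Matrix.vecMulVec (η m) (η m)

/-- `∑ G i j * adj(X - A) i j` -/
noncomputable def tra {ι : Type} [Fintype ι] [DecidableEq ι] (A G : Matrix ι ι ℤ) : ℤ[X] :=
  ∑ i, ∑ j, C (G i j) * A.charmatrix.adjugate i j

/-- the matrix of a path with weights `a i` -/
def pathM (a : Fin 4 → ℤ) : Matrix (Fin 4) (Fin 4) ℤ :=
  !![a 0, 1, 0, 0; 1, a 1, 1, 0; 0, 1, a 2, 1; 0, 0, 1, a 3]

/-- the real matrix -/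
def rM {ι κ : Type} (G : Matrix ι κ ℤ) : Matrix ι κ ℝ := G.map (fun x : ℤ => (x : ℝ))

/-- The rows of `V` are an orthonormal basis of eigenvectors of `pathM a` with eigenvalues `μ i`
near `a i`. -/
structure Eig (a : Fin 4 → ℤ) (μ : Fin 4 → ℝ) (V : Matrix (Fin 4) (Fin 4) ℝ) : Prop where
  orth : V * V.transpose = 1
  eig : V * rM (pathM a) = Matrix.diagonal μ * V
  near : ∀ i, |μ i - a i| ≤ 2
  small : ∀ i j, i ≠ j → |V i j| * |(a j : ℝ) - μ i| ≤ 2

end Pool.Agent.Helper28.SQ
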