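import Mathlib

/-! # Project SQ, module SQ-9: the entries of the matrix `∑ c_k v_k v_kᵀ` -/

set_option autoImplicit false

namespace Pool.Agent.Helper28.SQ

private theorem row_norm (V : Matrix (Fin 4) (Fin 4) ℝ) (hV : V * V.transpose = 1) (i : Fin 4) :
    ∑ j, V i j * V i j = 1 := by
  have h := congrFun (congrFun hV i) i
  rw [Matrix.mul_apply, Matrix.one_apply_eq] at h
  simpa [Matrix.transpose_apply] using h

private theorem entry_le_one (V : Matrix (Fin 4) (Fin 4) ℝ) (hV : V * V.transpose = 1)
    (i j : Fin 4) : |V i j| ≤ 1 := by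
  have h := row_norm V hV i
  have h2 : V i j * V i j ≤ ∑ j, V i j * V i j :=
    Finset.single_le_sum (f := fun j => V i j * V i j) (fun k _ => mul_self_nonneg _)
      (Finset.mem_univ j)
  rw [h] at h2
  exact abs_le_one_iff_mul_self_le_one.mpr h2

theorem diag_lower (V : Matrix (Fin 4) (Fin 4) ℝ) (hV : V * V.transpose = 1) (g c : Fin 4 → ℝ)
    (hg : ∀ k, 100 ≤ g k) (hs : ∀ k j, j ≠ k → |V k j| * g k ≤ 4) (hc : ∀ k, 0 ≤ c k)
    (i : Fin 4) : c i / 2 ≤ ∑ k, c k * V k i * V k i := by
  have h1 : c i * V i i * V i i ≤ ∑ k, c k * V k i * V k i :=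
    Finset.single_le_sum (f := fun k => c k * V k i * V k i)
      (fun k _ => by have := mul_nonneg (hc k) (mul_self_nonneg (V k i)); nlinarith)
      (Finset.mem_univ i)
  have h2 : ∀ j, j ≠ i → V i j * V i j ≤ 1 / 100 := by
    intro j hj
    have h3 := hs i j hj
    have h4 := hg i
    have h5 : |V i j| ≤ 1 / 10 := by
      have := abs_nonneg (V i j)
      nlinarith
    have h6 := abs_nonneg (V i j)
    have h7 : V i j * V i j = |V i j| * |V i j| := (abs_mul_abs_self _).symm
    rw [h7]
    nlinarith
  have h3 : 1 / 2 ≤ V i i * V i i := by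
    have h4 := row_norm V hV i
    have h5 : ∑ j, V i j * V i j = V i i * V i i + ∑ j ∈ Finset.univ.erase i, V i j * V i j :=
      (Finset.add_sum_erase _ _ (Finset.mem_univ i)).symm
    have h6 : ∑ j ∈ Finset.univ.erase i, V i j * V i j ≤ ∑ j ∈ Finset.univ.erase i, (1 / 100 : ℝ) :=
      Finset.sum_le_sum fun j hj => h2 j (Finset.ne_of_mem_erase hj)
    rw [Finset.sum_const, Finset.card_erase_of_mem (Finset.mem_univ i)] at h6
    simp at h6
    linarith
  have h4 := mul_le_mul_of_nonneg_left h3 (hc i)
  nlinarith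

theorem off_upper (V : Matrix (Fin 4) (Fin 4) ℝ) (hV : V * V.transpose = 1) (g c : Fin 4 → ℝ)
    (hg : ∀ k, 100 ≤ g k) (hs : ∀ k j, j ≠ k → |V k j| * g k ≤ 4)
    (hc : ∀ k, 0 ≤ c k ∧ c k ≤ 2 * g k ^ 2) {i j : Fin 4} (hij : i ≠ j) :
    |∑ k, c k * V k i * V k j| ≤ 8 * (g i + g j) + 64 := by
  have key : ∀ k, |c k * V k i * V k j| ≤
      32 + (if k = i then 8 * g i - 32 else 0) + (if k = j then 8 * g j - 32 else 0) := by
    intro k
    rw [abs_mul, abs_mul, abs_of_nonneg (hc k).1]
    have hgk := hg k
    have hck := (hc k).2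
    have hck0 := (hc k).1
    have hgen : ∀ l m : Fin 4, l = k → m ≠ k → c k * |V k l| * |V k m| ≤ 8 * g k := by
      intro l m _ hm
      have h1 := hs k m hm
      have h2 := entry_le_one V hV k l
      have h3 := abs_nonneg (V k l)
      have h4 := abs_nonneg (V k m)
      calc c k * |V k l| * |V k m| ≤ 2 * g k ^ 2 * 1 * |V k m| := by gcongr
        _ = 2 * g k * (|V k m| * g k) := by ring
        _ ≤ 2 * g k * 4 := by gcongr
        _ = 8 * g k := by ring
    by_cases hki : k = i
    · subst hki
      have h := hgen k j rfl hij.symm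
      rw [if_pos rfl, if_neg hij]
      linarith
    · by_cases hkj : k = j
      · subst hkj
        have h := hgen k i rfl (fun h => hki h.symm)
        rw [if_neg hki, if_pos rfl]
        have : c k * |V k i| * |V k k| = c k * |V k k| * |V k i| := by ring
        rw [this]
        linarith
      · rw [if_neg hki, if_neg hkj]
        have h1 := hs k i (fun h => hki h.symm)
        have h2 := hs k j (fun h => hkj h.symm)
        have h3 := abs_nonneg (V k i)
        have h4 := abs_nonneg (V k j)
        have h5 : c k * |V k i| * |V k j| ≤ 32 := by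
          calc c k * |V k i| * |V k j| ≤ 2 * g k ^ 2 * |V k i| * |V k j| := by gcongr
            _ = 2 * (|V k i| * g k) * (|V k j| * g k) := by ring
            _ ≤ 2 * 4 * 4 := by gcongr
            _ = 32 := by norm_num
        linarith
  calc |∑ k, c k * V k i * V k j| ≤ ∑ k, |c k * V k i * V k j| := Finset.abs_sum_le_sum_abs _ _
    _ ≤ ∑ k, (32 + (if k = i then 8 * g i - 32 else 0) + (if k = j then 8 * g j - 32 else 0)) :=
        Finset.sum_le_sum fun k _ => key k
    _ = 8 * (g i + g j) + 64 := by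
        rw [Finset.sum_add_distrib, Finset.sum_add_distrib, Finset.sum_ite_eq', Finset.sum_ite_eq']
        simp
        ring

end Pool.Agent.Helper28.SQ
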