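import Pool.Agent.Helper28.SQ.Defs

/-! # Project SQ, module SQ-7: rounding -/

set_option autoImplicit false

open Polynomial

namespace Pool.Agent.Helper28.SQ

private lemma tra_eq_trace (A G : Matrix (Fin 4) (Fin 4) ℤ) (hA : A.IsSymm) :
    tra A G = (G.map (C : ℤ →+* ℤ[X]) * A.charmatrix.adjugate).trace := by
  have hs : A.charmatrix.adjugate.transpose = A.charmatrix.adjugate := by
    rw [Matrix.adjugate_transpose]
    congr 1
    rw [← Matrix.charmatrix_transpose, hA.eq]
  unfold tra
  rw [Matrix.trace]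
  refine Finset.sum_congr rfl fun i _ => ?_
  rw [Matrix.diag_apply, Matrix.mul_apply]
  refine Finset.sum_congr rfl fun j _ => ?_
  have h1 := congrFun (congrFun hs i) j
  rw [Matrix.transpose_apply] at h1
  rw [h1]
  rfl

private lemma adj_comm (A : Matrix (Fin 4) (Fin 4) ℤ) :
    A.charmatrix.adjugate * A.map (C : ℤ →+* ℤ[X]) =
      A.map (C : ℤ →+* ℤ[X]) * A.charmatrix.adjugate := by
  have h1 := Matrix.adjugate_mul A.charmatrix
  have h2 := Matrix.mul_adjugate A.charmatrix
  have h3 : A.charmatrix.adjugate * A.charmatrix = A.charmatrix * A.charmatrix.adjugate := by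
    rw [h1, h2]
  have h4 : A.charmatrix = Matrix.scalar (Fin 4) (X : ℤ[X]) - A.map (C : ℤ →+* ℤ[X]) := rfl
  have h5 : A.charmatrix.adjugate * Matrix.scalar (Fin 4) (X : ℤ[X]) =
      Matrix.scalar (Fin 4) (X : ℤ[X]) * A.charmatrix.adjugate :=
    (Matrix.scalar_commute (X : ℤ[X]) (fun r => Commute.all _ _) A.charmatrix.adjugate).symm
  have h6 : A.map (C : ℤ →+* ℤ[X]) = Matrix.scalar (Fin 4) (X : ℤ[X]) - A.charmatrix := by
    rw [h4]; abel
  rw [h6, mul_sub, sub_mul, h5, h3]

private lemma tra_sub (A G H : Matrix (Fin 4) (Fin 4) ℤ) : tra A (G - H) = tra A G - tra A H := by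
  unfold tra
  rw [← Finset.sum_sub_distrib]
  refine Finset.sum_congr rfl fun i _ => ?_
  rw [← Finset.sum_sub_distrib]
  refine Finset.sum_congr rfl fun j _ => ?_
  rw [Matrix.sub_apply, C_sub, sub_mul]

theorem tra_comm (A Z : Matrix (Fin 4) (Fin 4) ℤ) (hA : A.IsSymm) :
    tra A (A * Z - Z * A) = 0 := by
  rw [tra_sub, tra_eq_trace A _ hA, tra_eq_trace A _ hA, Matrix.map_mul, Matrix.map_mul,
    Matrix.mul_assoc, Matrix.mul_assoc, ← adj_comm A,
    ← Matrix.mul_assoc (Z.map _) A.charmatrix.adjugate,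
    Matrix.trace_mul_comm (Z.map (C : ℤ →+* ℤ[X]) * A.charmatrix.adjugate)]
  exact sub_self _

private lemma comm_bound (a : Fin 4 → ℤ) (Y : Matrix (Fin 4) (Fin 4) ℝ)
    (hY : ∀ i j, |Y i j| ≤ 1 / 2) (i j : Fin 4) :
    |(rM (pathM a) * Y - Y * rM (pathM a)) i j| ≤ |(a i : ℝ) - a j| / 2 + 2 := by
  have hd : |((a i : ℝ) - a j) * Y i j| ≤ |(a i : ℝ) - a j| / 2 := by
    rw [abs_mul]
    have := mul_le_mul_of_nonneg_left (hY i j) (abs_nonneg ((a i : ℝ) - a j))
    linarith
  rw [abs_le] at hd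
  have hy : ∀ k l, -(1 / 2) ≤ Y k l ∧ Y k l ≤ 1 / 2 := fun k l => abs_le.mp (hY k l)
  set B := |(a i : ℝ) - a j| / 2 with hB
  clear_value B
  obtain ⟨hd1, hd2⟩ := hd
  have hB0 : 0 ≤ B := by linarith
  have y00 := hy 0 0
  have y01 := hy 0 1
  have y02 := hy 0 2
  have y03 := hy 0 3
  have y10 := hy 1 0
  have y11 := hy 1 1
  have y12 := hy 1 2
  have y13 := hy 1 3
  have y20 := hy 2 0
  have y21 := hy 2 1
  have y22 := hy 2 2
  have y23 := hy 2 3
  have y30 := hy 3 0
  have y31 := hy 3 1
  have y32 := hy 3 2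
  have y33 := hy 3 3
  rw [Matrix.sub_apply, Matrix.mul_apply, Matrix.mul_apply, Fin.sum_univ_four, Fin.sum_univ_four,
    abs_le]
  fin_cases i <;> fin_cases j <;>
    simp [rM, pathM] at hd1 hd2 ⊢ <;>
    constructor <;> linarith [y00.1, y00.2, y01.1, y01.2, y02.1, y02.2, y03.1, y03.2,
      y10.1, y10.2, y11.1, y11.2, y12.1, y12.2, y13.1, y13.2,
      y20.1, y20.2, y21.1, y21.2, y22.1, y22.2, y23.1, y23.2,
      y30.1, y30.2, y31.1, y31.2, y32.1, y32.2, y33.1, y33.2]

private lemma exists_int_skew (X0 : Matrix (Fin 4) (Fin 4) ℝ) (hX : X0.transpose = -X0) :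
    ∃ X1 : Matrix (Fin 4) (Fin 4) ℤ, X1.transpose = -X1 ∧ ∀ i j, |X0 i j - X1 i j| ≤ 1 / 2 := by
  refine ⟨Matrix.of fun i j => if i < j then round (X0 i j) else if j < i then -round (X0 j i)
    else 0, ?_, ?_⟩
  · ext i j
    rw [Matrix.transpose_apply, Matrix.neg_apply, Matrix.of_apply, Matrix.of_apply]
    rcases lt_trichotomy i j with h | h | h
    · rw [if_neg (not_lt.mpr h.le), if_pos h, if_pos h]
    · subst h; simp
    · rw [if_pos h, if_neg (not_lt.mpr h.le), if_pos h, neg_neg]
  · intro i j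
    have hsk : X0 j i = -X0 i j := by
      have := congrFun (congrFun hX i) j
      rwa [Matrix.transpose_apply, Matrix.neg_apply] at this
    rw [Matrix.of_apply]
    rcases lt_trichotomy i j with h | h | h
    · rw [if_pos h]
      exact abs_sub_round _
    · subst h
      have h0 : X0 i i = 0 := by linarith
      simp [h0]
    · rw [if_neg (not_lt.mpr h.le), if_pos h]
      have h1 := abs_sub_round (X0 j i)
      rw [hsk] at h1 ⊢
      have h2 : X0 i j - ((-round (-X0 i j) : ℤ) : ℝ) = -(-X0 i j - (round (-X0 i j) : ℝ)) := by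
        push_cast
        ring
      rw [h2, abs_neg]
      exact h1

theorem exists_round {a : Fin 4 → ℤ} {μ : Fin 4 → ℝ} {V : Matrix (Fin 4) (Fin 4) ℝ}
    (h : Eig a μ V) (hμ : Function.Injective μ) (G₁ : Matrix (Fin 4) (Fin 4) ℤ)
    (hG : G₁.IsSymm) :
    ∃ G : Matrix (Fin 4) (Fin 4) ℤ, G.IsSymm ∧ tra (pathM a) G = tra (pathM a) G₁ ∧
      ∀ i j, |(G i j : ℝ) - ∑ k, (V * rM G₁ * V.transpose) k k * V k i * V k j| ≤
        |(a i : ℝ) - a j| / 2 + 2 := by
  have hAs : (pathM a).IsSymm := by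
    ext i j
    fin_cases i <;> fin_cases j <;> simp [pathM, Matrix.transpose_apply]
  have hV2 : V.transpose * V = 1 := mul_eq_one_comm.mp h.orth
  set Ar := rM (pathM a) with hAr
  have hA1 : Ar = V.transpose * Matrix.diagonal μ * V := by
    rw [Matrix.mul_assoc, ← h.eig, ← Matrix.mul_assoc, hV2, Matrix.one_mul]
  have hrG : (rM G₁).transpose = rM G₁ := by
    unfold rM
    rw [← Matrix.transpose_map, hG.eq]
  set D := V * rM G₁ * V.transpose with hD
  have hDs : D.transpose = D := by
    rw [hD, Matrix.transpose_mul, Matrix.transpose_mul, Matrix.transpose_transpose, hrG,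
      Matrix.mul_assoc]
  have hDij : ∀ i j, D j i = D i j := fun i j => congrFun (congrFun hDs i) j
  set W : Matrix (Fin 4) (Fin 4) ℝ := Matrix.of fun i j => D i j / (μ i - μ j) with hW
  have hWs : W.transpose = -W := by
    ext i j
    rw [Matrix.transpose_apply, Matrix.neg_apply, hW, Matrix.of_apply, Matrix.of_apply, hDij,
      ← neg_sub (μ i) (μ j), div_neg]
  have hWc : Matrix.diagonal μ * W - W * Matrix.diagonal μ =
      D - Matrix.diagonal (fun k => D k k) := by
    ext i j
    rw [Matrix.sub_apply, Matrix.sub_apply, Matrix.diagonal_mul, Matrix.mul_diagonal, hW,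
      Matrix.of_apply]
    by_cases hij : i = j
    · subst hij
      simp
    · rw [Matrix.diagonal_apply_ne _ hij, sub_zero]
      have hne : μ i - μ j ≠ 0 := sub_ne_zero.mpr (fun hc => hij (hμ hc))
      field_simp
  set X0 := V.transpose * W * V with hX0
  have hX0s : X0.transpose = -X0 := by
    rw [hX0, Matrix.transpose_mul, Matrix.transpose_mul, Matrix.transpose_transpose, hWs,
      Matrix.neg_mul, Matrix.mul_neg, Matrix.mul_assoc]
  have hcomm : Ar * X0 - X0 * Ar = rM G₁ - V.transpose * Matrix.diagonal (fun k => D k k) * V := by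
    have e1 : Ar * X0 = V.transpose * (Matrix.diagonal μ * W) * V := by
      rw [hA1, hX0]
      calc V.transpose * Matrix.diagonal μ * V * (V.transpose * W * V)
          = V.transpose * Matrix.diagonal μ * (V * V.transpose) * W * V := by
            simp only [Matrix.mul_assoc]
        _ = _ := by rw [h.orth, Matrix.mul_one]; simp only [Matrix.mul_assoc]
    have e2 : X0 * Ar = V.transpose * (W * Matrix.diagonal μ) * V := by
      rw [hA1, hX0]
      calc V.transpose * W * V * (V.transpose * Matrix.diagonal μ * V)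
          = V.transpose * W * (V * V.transpose) * Matrix.diagonal μ * V := by
            simp only [Matrix.mul_assoc]
        _ = _ := by rw [h.orth, Matrix.mul_one]; simp only [Matrix.mul_assoc]
    have e3 : V.transpose * D * V = rM G₁ := by
      rw [hD]
      calc V.transpose * (V * rM G₁ * V.transpose) * V
          = (V.transpose * V) * rM G₁ * (V.transpose * V) := by simp only [Matrix.mul_assoc]
        _ = _ := by rw [hV2, Matrix.mul_one, Matrix.one_mul]
    rw [e1, e2, ← Matrix.sub_mul, ← Matrix.mul_sub, hWc, Matrix.mul_sub, Matrix.sub_mul, e3]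
  have hsum : ∀ i j, ∑ k, D k k * V k i * V k j =
      (V.transpose * Matrix.diagonal (fun k => D k k) * V) i j := by
    intro i j
    rw [Matrix.mul_apply]
    refine Finset.sum_congr rfl fun k _ => ?_
    rw [Matrix.mul_diagonal, Matrix.transpose_apply]
    ring
  obtain ⟨X1, hX1s, hX1⟩ := exists_int_skew X0 hX0s
  refine ⟨G₁ - (pathM a * X1 - X1 * pathM a), ?_, ?_, ?_⟩
  · change (G₁ - (pathM a * X1 - X1 * pathM a)).transpose = _
    rw [Matrix.transpose_sub, Matrix.transpose_sub, Matrix.transpose_mul, Matrix.transpose_mul,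
      hG.eq, hAs.eq, hX1s, Matrix.neg_mul, Matrix.mul_neg]
    congr 1
    abel
  · rw [tra_sub, tra_comm _ _ hAs, sub_zero]
  · intro i j
    rw [hsum]
    have hr : ((G₁ - (pathM a * X1 - X1 * pathM a)) i j : ℝ) =
        (rM G₁ - (Ar * rM X1 - rM X1 * Ar)) i j := by
      have h1 : rM (G₁ - (pathM a * X1 - X1 * pathM a)) =
          rM G₁ - (Ar * rM X1 - rM X1 * Ar) := by
        ext k l
        simp [rM, hAr, Matrix.mul_apply, Matrix.sub_apply]
      rw [← h1]
      rfl
    rw [hr]
    have h2 : (rM G₁ - (Ar * rM X1 - rM X1 * Ar)) i j -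
        (V.transpose * Matrix.diagonal (fun k => D k k) * V) i j =
        (Ar * (X0 - rM X1) - (X0 - rM X1) * Ar) i j := by
      have h3 : V.transpose * Matrix.diagonal (fun k => D k k) * V =
          rM G₁ - (Ar * X0 - X0 * Ar) := by
        rw [hcomm]; abel
      have h4 : (rM G₁ - (Ar * rM X1 - rM X1 * Ar)) - (rM G₁ - (Ar * X0 - X0 * Ar)) =
          Ar * (X0 - rM X1) - (X0 - rM X1) * Ar := by
        rw [Matrix.mul_sub, Matrix.sub_mul]
        abel
      rw [h3, ← Matrix.sub_apply]
      exact congrFun (congrFun h4 i) j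
    rw [h2]
    exact comm_bound a (X0 - rM X1) (fun k l => hX1 k l) i j

end Pool.Agent.Helper28.SQ
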