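import Pool.Agent.Helper28.SQ.Defs

/-! # Project SQ, module SQ-4: the linear equation has integral solutions -/

set_option autoImplicit false

open Polynomial

namespace Pool.Agent.Helper28.SQ

/-- the adjugate of a general symmetric path matrix -/
private def solN {K : Type} [CommRing K] (y : Fin 4 → K) : Matrix (Fin 4) (Fin 4) K :=
  !![y 1 * y 2 * y 3 - y 1 - y 3, y 2 * y 3 - 1, y 3, 1;
     y 2 * y 3 - 1, y 0 * (y 2 * y 3 - 1), y 0 * y 3, y 0;
     y 3, y 0 * y 3, (y 0 * y 1 - 1) * y 3, y 0 * y 1 - 1;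
     1, y 0, y 0 * y 1 - 1, y 0 * y 1 * y 2 - y 0 - y 2]

private def solM {K : Type} [CommRing K] (y : Fin 4 → K) : Matrix (Fin 4) (Fin 4) K :=
  !![y 0, -1, 0, 0; -1, y 1, -1, 0; 0, -1, y 2, -1; 0, 0, -1, y 3]

private theorem solM_adj {K : Type} [CommRing K] (y : Fin 4 → K) :
    (solM y).adjugate = solN y := by
  refine Matrix.ext fun i j => ?_
  rw [Matrix.adjugate_apply]
  fin_cases i <;> fin_cases j <;>
    (simp [Matrix.det_succ_row_zero, Fin.sum_univ_succ, solM, solN, Matrix.updateRow_apply,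
      Fin.succAbove, Pi.single_apply]
     try ring)

private theorem charm_eq (a : Fin 4 → ℤ) :
    (pathM a).charmatrix = solM (fun i => X - C (a i)) := by
  refine Matrix.ext fun i j => ?_
  fin_cases i <;> fin_cases j <;>
    simp [Matrix.charmatrix, pathM, solM]

theorem exists_sol (a : Fin 4 → ℤ) (h0 : Even (a 0)) (h1 : Even (a 1)) (h2 : Odd (a 2))
    (h3 : Even (a 3)) (R : ℤ[X]) (hR : R.natDegree ≤ 3) :
    ∃ G : Matrix (Fin 4) (Fin 4) ℤ, G.IsSymm ∧ tra (pathM a) G = R := by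
  have hRe : R = C (R.coeff 0) + C (R.coeff 1) * X + C (R.coeff 2) * X ^ 2
      + C (R.coeff 3) * X ^ 3 := by
    conv_lhs => rw [R.as_sum_range' 4 (by omega)]
    simp only [Finset.sum_range_succ, Finset.sum_range_zero, zero_add,
      ← C_mul_X_pow_eq_monomial, pow_zero, mul_one, pow_one]
  generalize R.coeff 0 = r0 at hRe
  generalize R.coeff 1 = r1 at hRe
  generalize R.coeff 2 = r2 at hRe
  generalize R.coeff 3 = r3 at hRe
  generalize ha0 : a 0 = a0 at *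
  generalize ha1 : a 1 = a1 at *
  generalize ha2 : a 2 = a2 at *
  generalize ha3 : a 3 = a3 at *
  have z0 : ((a0 : ℤ) : ZMod 2) = 0 := (ZMod.intCast_zmod_eq_zero_iff_dvd a0 2).mpr h0.two_dvd
  have z1 : ((a1 : ℤ) : ZMod 2) = 0 := (ZMod.intCast_zmod_eq_zero_iff_dvd a1 2).mpr h1.two_dvd
  have z3 : ((a3 : ℤ) : ZMod 2) = 0 := (ZMod.intCast_zmod_eq_zero_iff_dvd a3 2).mpr h3.two_dvd
  have z2 : ((a2 : ℤ) : ZMod 2) = 1 := by
    obtain ⟨k, hk⟩ := h2
    rw [hk]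
    push_cast
    have : (2 : ZMod 2) = 0 := by decide
    rw [this]
    ring
  have two0 : (2 : ZMod 2) = 0 := by decide
  have ev : ∀ t : ℤ, ((t : ℤ) : ZMod 2) = 0 → ∃ s, t = 2 * s := by
    intro t ht
    exact (ZMod.intCast_zmod_eq_zero_iff_dvd t 2).mp ht
  obtain ⟨s2, hs2⟩ := ev (r2 + (r3 - r1 - r0) * (a1 + a2 + a3) + (r1 + r2 - r3) * (a0 + a2 + a3)
    + (r3 - r2) * (a0 + a1 + a3) + r0 * (a0 + a1 + a2)) (by
      push_cast
      rw [z0, z1, z2, z3]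
      linear_combination (r2 : ZMod 2) * two0)
  obtain ⟨s1, hs1⟩ := ev (r1 - (r3 - r1 - r0) * (a1 * a2 + a1 * a3 + a2 * a3 - 2)
    - (r1 + r2 - r3) * (a0 * a2 + a0 * a3 + a2 * a3 - 1)
    - (r3 - r2) * (a0 * a1 + a0 * a3 + a1 * a3 - 1)
    - r0 * (a0 * a1 + a0 * a2 + a1 * a2 - 2)) (by
      push_cast
      rw [z0, z1, z2, z3]
      linear_combination ((r1 : ZMod 2) + (r3 - r1 - r0) + r0) * two0)
  obtain ⟨s0, hs0⟩ := ev (r0 - (r3 - r1 - r0) * (-a1 * a2 * a3 + a1 + a3)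
    - (r1 + r2 - r3) * (-a0 * a2 * a3 + a0)
    - (r3 - r2) * (-a0 * a1 * a3 + a3)
    - r0 * (-a0 * a1 * a2 + a0 + a2)) (by
      push_cast
      rw [z0, z1, z2, z3]
      ring)
  set g13 : ℤ := s1 + s2 * (a0 + a3) with hg13
  set g03 : ℤ := s0 - s2 * (a0 * a3) + g13 * a0 with hg03
  refine ⟨!![r3 - r1 - r0, 0, 0, g03; 0, r1 + r2 - r3, s2, g13; 0, s2, r3 - r2, 0;
    g03, g13, 0, r0], ?_, ?_⟩
  · refine Matrix.ext fun i j => ?_
    fin_cases i <;> fin_cases j <;> rfl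
  · unfold tra
    rw [charm_eq, solM_adj, hRe]
    simp only [Fin.sum_univ_four]
    have k2 := congrArg (Int.cast : ℤ → ℤ[X]) hs2
    have k1 := congrArg (Int.cast : ℤ → ℤ[X]) hs1
    have k0 := congrArg (Int.cast : ℤ → ℤ[X]) hs0
    have k3 := congrArg (Int.cast : ℤ → ℤ[X]) hg13
    have k4 := congrArg (Int.cast : ℤ → ℤ[X]) hg03
    push_cast at k2 k1 k0 k3 k4
    clear_value g13 g03
    simp [solN, ha0, ha1, ha2, ha3]
    linear_combination (-X ^ 2) * k2 + (-X) * k1 - k0 + 2 * X * k3 + 2 * k4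

end Pool.Agent.Helper28.SQ
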