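import Pool.Agent.Helper28.SQ.Defs

/-! # Project SQ, module SQ-10: sums of squares of integral linear forms -/

set_option autoImplicit false

namespace Pool.Agent.Helper28.SQ

namespace SosAux

variable {ι : Type}

private lemma sos_zero : SoS (0 : Matrix ι ι ℤ) :=
  ⟨0, fun _ _ => 0, by simp⟩

private lemma sos_add {A B : Matrix ι ι ℤ} (hA : SoS A) (hB : SoS B) : SoS (A + B) := by
  obtain ⟨s, η, rfl⟩ := hA
  obtain ⟨t, ζ, rfl⟩ := hB
  refine ⟨s + t, Fin.append η ζ, ?_⟩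
  rw [Fin.sum_univ_add]
  simp

private lemma sos_single (v : ι → ℤ) : SoS (Matrix.vecMulVec v v) :=
  ⟨1, fun _ => v, by simp⟩

/-- the symmetric matrix supported on two indices -/
private def M (i j : Fin 4) (x g z : ℤ) : Matrix (Fin 4) (Fin 4) ℤ := fun k l =>
  if k = i then (if l = i then x else if l = j then g else 0)
  else if k = j then (if l = i then g else if l = j then z else 0) else 0

private lemma M_add (i j : Fin 4) (x g z x' g' z' : ℤ) :
    M i j x g z + M i j x' g' z' = M i j (x + x') (g + g') (z + z') := by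
  ext k l
  simp only [M, Matrix.add_apply]
  split_ifs <;> simp

private lemma M_zero (i j : Fin 4) : M i j 0 0 0 = 0 := by
  ext k l
  simp only [M, Matrix.zero_apply]
  split_ifs <;> rfl

private lemma sos_M (i j : Fin 4) (hij : i ≠ j) (x y : ℤ) :
    SoS (M i j (x * x) (x * y) (y * y)) := by
  have h : M i j (x * x) (x * y) (y * y)
      = Matrix.vecMulVec (fun k => if k = i then x else if k = j then y else 0)
          (fun k => if k = i then x else if k = j then y else 0) := by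
    ext k l
    simp only [M, Matrix.vecMulVec_apply]
    split_ifs <;> simp_all [mul_comm]
  rw [h]
  exact sos_single _

private lemma sos_nM (i j : Fin 4) (hij : i ≠ j) (x y : ℤ) (n : ℕ) :
    SoS (M i j (n * (x * x)) (n * (x * y)) (n * (y * y))) := by
  induction n with
  | zero => simpa [M_zero] using sos_zero
  | succ n ih =>
    have h := sos_add ih (sos_M i j hij x y)
    rw [M_add] at h
    have e : ∀ w : ℤ, (n : ℤ) * w + w = ((n + 1 : ℕ) : ℤ) * w := by
      intro w; push_cast; ring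
    simpa only [e] using h

private lemma sos_zM (i j : Fin 4) (hij : i ≠ j) (x y n : ℤ) (hn : 0 ≤ n) :
    SoS (M i j (n * (x * x)) (n * (x * y)) (n * (y * y))) := by
  obtain ⟨k, rfl⟩ := Int.eq_ofNat_of_zero_le hn
  exact sos_nM i j hij x y k

private lemma pair_le (i j : Fin 4) (hij : i ≠ j) (a b g : ℤ) (ha : 100 ≤ a) (hab : a ≤ b)
    (hg : 100 * g ^ 2 ≤ a * b) :
    ∃ x z : ℤ, 10 * x ≤ 3 * a ∧ 10 * z ≤ 3 * b ∧ SoS (M i j x g z) := by
  obtain ⟨m, hm⟩ : ∃ m, m = a / 4 := ⟨_, rfl⟩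
  have hm1 : 4 * m ≤ a := by omega
  have hm2 : a ≤ 4 * m + 3 := by omega
  have hm0 : 25 ≤ m := by omega
  obtain ⟨q, hq⟩ : ∃ q, q = |g| / m := ⟨_, rfl⟩
  obtain ⟨r, hr⟩ : ∃ r, r = |g| % m := ⟨_, rfl⟩
  have hmq : m * q + r = |g| := by rw [hq, hr]; exact Int.mul_ediv_add_emod _ _
  have hr0 : 0 ≤ r := by rw [hr]; exact Int.emod_nonneg _ (by omega)
  have hr1 : r < m := by rw [hr]; exact Int.emod_lt_of_pos _ (by omega)
  obtain ⟨s, hs, hs2⟩ : ∃ s : ℤ, s * |g| = g ∧ s * s = 1 := by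
    rcases abs_cases g with h | h
    · exact ⟨1, by rw [h.1]; ring, by ring⟩
    · exact ⟨-1, by rw [h.1]; ring, by ring⟩
  have h1 := sos_zM i j hij 1 (s * q) (m - r) (by omega)
  have h2 := sos_zM i j hij 1 (s * (q + 1)) r hr0
  have h3 := sos_add h1 h2
  rw [M_add] at h3
  have e1 : (m - r) * (1 * 1) + r * (1 * 1) = m := by ring
  have e2 : (m - r) * (1 * (s * q)) + r * (1 * (s * (q + 1))) = g := by
    rw [← hs, ← hmq]; ring
  have e3 : (m - r) * (s * q * (s * q)) + r * (s * (q + 1) * (s * (q + 1)))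
      = m * q ^ 2 + 2 * r * q + r := by
    have : (m - r) * (s * q * (s * q)) + r * (s * (q + 1) * (s * (q + 1)))
      = (s * s) * (m * q ^ 2 + 2 * r * q + r) := by ring
    rw [this, hs2, one_mul]
  rw [e1, e2, e3] at h3
  refine ⟨m, m * q ^ 2 + 2 * r * q + r, by omega, ?_, h3⟩
  have hgg : (m * q + r) ^ 2 = g ^ 2 := by rw [hmq]; exact sq_abs g
  have key : m * (m * q ^ 2 + 2 * r * q + r) = g ^ 2 + r * (m - r) := by
    rw [← hgg]; ring
  have hrm : 4 * (r * (m - r)) ≤ m * m := by nlinarith [sq_nonneg (m - 2 * r)]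
  have hmb : m * (4 * m) ≤ m * b := mul_le_mul_of_nonneg_left (by omega) (by omega)
  have hab2 : a * b ≤ (5 * m) * b := mul_le_mul_of_nonneg_right (by omega) (by omega)
  have hfin : m * (10 * (m * q ^ 2 + 2 * r * q + r)) ≤ m * (3 * b) := by
    have : m * (10 * (m * q ^ 2 + 2 * r * q + r)) = 10 * (g ^ 2 + r * (m - r)) := by
      rw [← key]; ring
    rw [this]
    nlinarith
  exact le_of_mul_le_mul_left hfin (by omega)

private lemma M_swap (i j : Fin 4) (hij : i ≠ j) (x g z : ℤ) : M i j x g z = M j i z g x := by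
  ext k l
  simp only [M]
  split_ifs <;> simp_all

private lemma pair (i j : Fin 4) (hij : i ≠ j) (a b g : ℤ) (ha : 100 ≤ a) (hb : 100 ≤ b)
    (hg : 100 * g ^ 2 ≤ a * b) :
    ∃ x z : ℤ, 10 * x ≤ 3 * a ∧ 10 * z ≤ 3 * b ∧ SoS (M i j x g z) := by
  rcases le_total a b with h | h
  · exact pair_le i j hij a b g ha h hg
  · obtain ⟨z, x, h1, h2, h3⟩ := pair_le j i hij.symm b a g hb h (by rw [mul_comm b a]; exact hg)
    exact ⟨x, z, h2, h1, by rw [M_swap i j hij]; exact h3⟩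

private lemma sos_diag (x y : ℤ) (i j : Fin 4) (hij : i ≠ j) (hx : 0 ≤ x) (hy : 0 ≤ y) :
    SoS (M i j x 0 y) := by
  have h1 := sos_zM i j hij 1 0 x hx
  have h2 := sos_zM i j hij 0 1 y hy
  have h3 := sos_add h1 h2
  rw [M_add] at h3
  simpa using h3

end SosAux

open SosAux in
theorem sos_of (G : Matrix (Fin 4) (Fin 4) ℤ) (hG : G.IsSymm) (h1 : ∀ i, 100 ≤ G i i)
    (h2 : ∀ i j, i ≠ j → 100 * G i j ^ 2 ≤ G i i * G j j) : SoS G := by
  obtain ⟨x01, z01, a01, b01, s01⟩ := pair 0 1 (by decide) _ _ _ (h1 0) (h1 1) (h2 0 1 (by decide))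
  obtain ⟨x02, z02, a02, b02, s02⟩ := pair 0 2 (by decide) _ _ _ (h1 0) (h1 2) (h2 0 2 (by decide))
  obtain ⟨x03, z03, a03, b03, s03⟩ := pair 0 3 (by decide) _ _ _ (h1 0) (h1 3) (h2 0 3 (by decide))
  obtain ⟨x12, z12, a12, b12, s12⟩ := pair 1 2 (by decide) _ _ _ (h1 1) (h1 2) (h2 1 2 (by decide))
  obtain ⟨x13, z13, a13, b13, s13⟩ := pair 1 3 (by decide) _ _ _ (h1 1) (h1 3) (h2 1 3 (by decide))
  obtain ⟨x23, z23, a23, b23, s23⟩ := pair 2 3 (by decide) _ _ _ (h1 2) (h1 3) (h2 2 3 (by decide))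
  have g0 := h1 0
  have g1 := h1 1
  have g2 := h1 2
  have g3 := h1 3
  have d01 := sos_diag (G 0 0 - x01 - x02 - x03) (G 1 1 - z01 - x12 - x13) 0 1 (by decide)
    (by omega) (by omega)
  have d23 := sos_diag (G 2 2 - z02 - z12 - x23) (G 3 3 - z03 - z13 - z23) 2 3 (by decide)
    (by omega) (by omega)
  have h := sos_add (sos_add (sos_add (sos_add s01 s02) (sos_add s03 s12)) (sos_add s13 s23))
    (sos_add d01 d23)
  have e10 : G 1 0 = G 0 1 := hG.apply 0 1
  have e20 : G 2 0 = G 0 2 := hG.apply 0 2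
  have e30 : G 3 0 = G 0 3 := hG.apply 0 3
  have e21 : G 2 1 = G 1 2 := hG.apply 1 2
  have e31 : G 3 1 = G 1 3 := hG.apply 1 3
  have e32 : G 3 2 = G 2 3 := hG.apply 2 3
  convert h using 1
  ext i j
  fin_cases i <;> fin_cases j <;> simp [M, e10, e20, e30, e21, e31, e32] <;> ring

end Pool.Agent.Helper28.SQ
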