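import Pool.Agent.Helper28.SQ.Defs

/-! # Project SQ, module SQ-5: the eigenvectors of the path matrix -/

set_option autoImplicit false

open Polynomial

namespace Pool.Agent.Helper28.SQ

private lemma rM_symm (a : Fin 4 → ℤ) : (rM (pathM a)).IsHermitian := by
  ext i j
  fin_cases i <;> fin_cases j <;> simp [rM, pathM, Matrix.conjTranspose_apply]

/-- the eigenvalue equation row by row -/
private lemma row_bound (a : Fin 4 → ℤ) (v : Fin 4 → ℝ) (m : ℝ)
    (hv : (rM (pathM a)).mulVec v = m • v) (B : ℝ) (hB : ∀ j, |v j| ≤ B) (j : Fin 4) :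
    |v j| * |(a j : ℝ) - m| ≤ 2 * B := by
  have hB0 : 0 ≤ B := le_trans (abs_nonneg _) (hB 0)
  have hj := congrFun hv j
  suffices hsuf : -(2 * B) ≤ v j * ((a j : ℝ) - m) ∧ v j * ((a j : ℝ) - m) ≤ 2 * B by
    rw [← abs_mul, abs_le]
    exact hsuf
  have e0 := hB 0
  have e1 := hB 1
  have e2 := hB 2
  have e3 := hB 3
  rw [abs_le] at e0 e1 e2 e3
  fin_cases j <;>
    simp [Matrix.mulVec, dotProduct, Fin.sum_univ_four, rM, pathM] at hj ⊢ <;>
    constructor <;> nlinarith [e0.1, e0.2, e1.1, e1.2, e2.1, e2.2, e3.1, e3.2]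

theorem exists_eig (a : Fin 4 → ℤ) (h : ∀ i j, i < j → a i + 10 ≤ a j) :
    ∃ (μ : Fin 4 → ℝ) (V : Matrix (Fin 4) (Fin 4) ℝ), Eig a μ V := by
  have hH := rM_symm a
  set m : Fin 4 → ℝ := hH.eigenvalues with hm
  set W : Matrix (Fin 4) (Fin 4) ℝ := Matrix.of fun i j => (hH.eigenvectorBasis i) j with hW
  -- orthonormality
  have horth : W * W.transpose = 1 := by
    ext i k
    have h1 := (orthonormal_iff_ite.mp hH.eigenvectorBasis.orthonormal) k i
    rw [Matrix.mul_apply, Matrix.one_apply]
    simp only [PiLp.inner_apply, RCLike.inner_apply, conj_trivial] at h1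
    simp only [hW, Matrix.transpose_apply, Matrix.of_apply]
    rw [h1]
    simp only [eq_comm]
  have horth' : W.transpose * W = 1 := mul_eq_one_comm.mp horth
  have heig : ∀ i, (rM (pathM a)).mulVec (W i) = m i • W i := by
    intro i
    exact hH.mulVec_eigenvectorBasis i
  have hunit : ∀ i, ∑ j, W i j * W i j = 1 := by
    intro i
    have := congrFun (congrFun horth i) i
    simpa [Matrix.mul_apply, Matrix.one_apply] using this
  have hcol : ∀ j, ∑ i, W i j * W i j = 1 := by
    intro j
    have := congrFun (congrFun horth' j) j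
    simpa [Matrix.mul_apply, Matrix.one_apply] using this
  have hle1 : ∀ i j, |W i j| ≤ 1 := by
    intro i j
    have h2 : W i j * W i j ≤ 1 := by
      rw [← hunit i]
      exact Finset.single_le_sum (f := fun j => W i j * W i j) (fun k _ => mul_self_nonneg _)
        (Finset.mem_univ j)
    rw [abs_le]
    constructor <;> nlinarith
  have hsmall : ∀ i j, |W i j| * |(a j : ℝ) - m i| ≤ 2 := by
    intro i j
    have := row_bound a (W i) (m i) (heig i) 1 (hle1 i) j
    linarith
  -- the nearest diagonal entry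
  have hs : ∀ i, ∃ j, |m i - a j| ≤ 2 := by
    intro i
    obtain ⟨j, -, hj⟩ := Finset.exists_max_image (Finset.univ : Finset (Fin 4))
      (fun j => |W i j|) ⟨0, Finset.mem_univ _⟩
    refine ⟨j, ?_⟩
    have h1 := row_bound a (W i) (m i) (heig i) |W i j| (fun k => hj k (Finset.mem_univ k)) j
    have hpos : 0 < |W i j| := by
      by_contra hc
      have hz : ∀ k, W i k = 0 := by
        intro k
        have h2 := hj k (Finset.mem_univ k)
        have h3 : |W i k| ≤ 0 := le_trans h2 (not_lt.mp hc)
        exact abs_eq_zero.mp (le_antisymm h3 (abs_nonneg _))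
      have h4 := hunit i
      simp [hz] at h4
    have h5 : |W i j| * |(a j : ℝ) - m i| ≤ |W i j| * 2 := by linarith
    have h6 := le_of_mul_le_mul_left h5 hpos
    rwa [abs_sub_comm] at h6
  choose s hs using hs
  have hsurj : Function.Surjective s := by
    intro j
    by_contra hc
    push Not at hc
    have hfar : ∀ i, W i j * W i j ≤ 1 / 16 := by
      intro i
      have h1 := hs i
      have h2 := hc i
      have h3 : (8 : ℝ) ≤ |(a j : ℝ) - m i| := by
        rw [abs_le] at h1
        rcases lt_or_gt_of_ne h2 with h4 | h4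
        · have h5 : ((a (s i) : ℤ) : ℝ) + 10 ≤ a j := by exact_mod_cast h _ _ h4
          rw [le_abs]; left; linarith [h1.1, h1.2]
        · have h5 : ((a j : ℤ) : ℝ) + 10 ≤ a (s i) := by exact_mod_cast h _ _ h4
          rw [le_abs]; right; linarith [h1.1, h1.2]
      have h6 := hsmall i j
      have h7 : |W i j| ≤ 1 / 4 := by
        have h8 : |W i j| * 8 ≤ |W i j| * |(a j : ℝ) - m i| :=
          mul_le_mul_of_nonneg_left h3 (abs_nonneg _)
        linarith
      rw [← abs_mul_abs_self]
      nlinarith [abs_nonneg (W i j)]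
    have h9 := hcol j
    have h10 : ∑ i, W i j * W i j ≤ ∑ _i : Fin 4, (1 / 16 : ℝ) :=
      Finset.sum_le_sum (fun i _ => hfar i)
    rw [h9] at h10
    norm_num at h10
  have hbij : Function.Bijective s := Finite.surjective_iff_bijective.mp hsurj
  set e : Fin 4 ≃ Fin 4 := Equiv.ofBijective s hbij with he
  have hse : ∀ k, s (e.symm k) = k := fun k => e.apply_symm_apply k
  refine ⟨fun k => m (e.symm k), Matrix.of fun k j => W (e.symm k) j, ?_, ?_, ?_, ?_⟩
  · ext i k
    have h1 := congrFun (congrFun horth (e.symm i)) (e.symm k)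
    rw [Matrix.mul_apply, Matrix.one_apply] at h1 ⊢
    simp only [Matrix.transpose_apply, Matrix.of_apply] at h1 ⊢
    rw [h1]
    simp
  · ext i k
    have h1 := congrFun (heig (e.symm i)) k
    rw [Matrix.mul_apply, Matrix.diagonal_mul]
    simp only [Matrix.of_apply]
    simp only [Matrix.mulVec, dotProduct, Pi.smul_apply, smul_eq_mul] at h1
    rw [← h1]
    refine Finset.sum_congr rfl fun l _ => ?_
    have h2 := congrFun (congrFun hH k) l
    simp only [Matrix.conjTranspose_apply, star_trivial] at h2
    rw [← h2]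
    ring
  · intro k
    have := hs (e.symm k)
    rwa [hse k] at this
  · intro i j _
    exact hsmall _ j

end Pool.Agent.Helper28.SQ
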