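import Pool.Agent.Helper28.SQ.Crit
import Pool.Agent.Helper28.SQ.MP
import Pool.Agent.Helper28.SQ.Sol
import Pool.Agent.Helper28.SQ.Spec
import Pool.Agent.Helper28.SQ.Adj
import Pool.Agent.Helper28.SQ.Round
import Pool.Agent.Helper28.SQ.Coef
import Pool.Agent.Helper28.SQ.Ent
import Pool.Agent.Helper28.SQ.Sos

/-! # Project SQ: the theorem -/

set_option autoImplicit false

open Polynomial

namespace Pool.Agent.Helper28.SQ

/-- an integer of given parity near a real number -/
theorem exists_near_even (x : ℝ) : ∃ n : ℤ, Even n ∧ |(n : ℝ) - x| ≤ 1 := by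
  refine ⟨2 * round (x / 2), ⟨round (x / 2), by ring⟩, ?_⟩
  have h := abs_sub_round (x / 2)
  have h2 : ((2 * round (x / 2) : ℤ) : ℝ) - x = -(2 * (x / 2 - round (x / 2))) := by
    push_cast
    ring
  rw [h2, abs_neg, abs_mul, abs_two]
  linarith

theorem exists_near_odd (x : ℝ) : ∃ n : ℤ, Odd n ∧ |(n : ℝ) - x| ≤ 1 := by
  obtain ⟨n, hn, h⟩ := exists_near_even (x - 1)
  refine ⟨n + 1, hn.add_one, ?_⟩
  push_cast
  have : (n : ℝ) + 1 - x = n - (x - 1) := by ring
  rwa [this]

/-- the diagonal entries of the path matrix -/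
theorem exists_a (t : Fin 4 → ℝ) : ∃ a : Fin 4 → ℤ, Even (a 0) ∧ Even (a 1) ∧ Odd (a 2) ∧
    Even (a 3) ∧ ∀ i, |(a i : ℝ) - t i| ≤ 1 := by
  obtain ⟨a0, h0, h0'⟩ := exists_near_even (t 0)
  obtain ⟨a1, h1, h1'⟩ := exists_near_even (t 1)
  obtain ⟨a2, h2, h2'⟩ := exists_near_odd (t 2)
  obtain ⟨a3, h3, h3'⟩ := exists_near_even (t 3)
  refine ⟨![a0, a1, a2, a3], h0, h1, h2, h3, ?_⟩
  intro i
  fin_cases i
  · exact h0'
  · exact h1'
  · exact h2'
  · exact h3'

/-- The difference of `P` and `(X - d) Q` has degree at most three for a suitable `d`. -/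
theorem exists_d {P Q : ℤ[X]} (hP : P.Monic) (hP5 : P.natDegree = 5) (hQ : Q.Monic)
    (hQ4 : Q.natDegree = 4) : ∃ d : ℤ, ((X - C d) * Q - P).natDegree ≤ 3 := by
  refine ⟨Q.coeff 3 - P.coeff 4, ?_⟩
  set d := Q.coeff 3 - P.coeff 4 with hd
  rw [natDegree_le_iff_coeff_eq_zero]
  intro N hN
  have hm : ((X - C d) * Q).natDegree = 5 := by
    rw [(monic_X_sub_C d).natDegree_mul hQ, natDegree_X_sub_C, hQ4]
  have hc : ∀ n : ℕ, ((X - C d) * Q).coeff (n + 1) = Q.coeff n - d * Q.coeff (n + 1) := by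
    intro n
    rw [sub_mul, coeff_sub, coeff_X_mul, coeff_C_mul]
  rw [coeff_sub]
  rcases lt_trichotomy N 5 with h | h | h
  · have h4 : N = 4 := by omega
    subst h4
    rw [hc 3]
    have hl : Q.coeff 4 = 1 := by
      have := hQ.coeff_natDegree
      rwa [hQ4] at this
    rw [hl, hd]
    ring
  · subst h
    rw [hc 4]
    have hl : Q.coeff 4 = 1 := by
      have := hQ.coeff_natDegree
      rwa [hQ4] at this
    have hl5 : Q.coeff 5 = 0 := coeff_eq_zero_of_natDegree_lt (by omega)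
    have hp5 : P.coeff 5 = 1 := by
      have := hP.coeff_natDegree
      rwa [hP5] at this
    rw [hl, hl5, hp5]
    ring
  · rw [coeff_eq_zero_of_natDegree_lt (by omega), coeff_eq_zero_of_natDegree_lt (by omega)]
    ring

/-- The numerical part: the matrix `G` is a sum of squares. -/
theorem sos_of_bounds {l : Fin 5 → ℝ} (hl : StrictMono l) (g c : Fin 4 → ℝ)
    (hg : ∀ i : Fin 4, g i = l i.succ - l i.castSucc) (hgap : ∀ i : Fin 4, 2000 ≤ g i)
    (hsep : ∀ i j : Fin 4, i < j → 1000 * (l j.castSucc - l i.succ) ≤ g i * g j)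
    {a : Fin 4 → ℤ} (ha : ∀ i : Fin 4, |(a i : ℝ) - (l i.castSucc + l i.succ) / 2| ≤ 1)
    (hc : ∀ i : Fin 4, g i ^ 2 / 4 - 9 ≤ c i) {V : Matrix (Fin 4) (Fin 4) ℝ}
    (hd : ∀ i, c i / 2 ≤ ∑ k, c k * V k i * V k i)
    (ho : ∀ i j, i ≠ j → |∑ k, c k * V k i * V k j| ≤ 8 * (g i + g j) + 64)
    {G : Matrix (Fin 4) (Fin 4) ℤ} (hG : G.IsSymm)
    (hGE : ∀ i j, |(G i j : ℝ) - ∑ k, c k * V k i * V k j| ≤ |(a i : ℝ) - a j| / 2 + 2) :
    SoS G := by
  have hdiag : ∀ i, g i ^ 2 / 10 ≤ (G i i : ℝ) := by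
    intro i
    have e1 := (abs_le.mp (hGE i i)).1
    rw [sub_self, abs_zero] at e1
    have e2 := hd i
    have e3 := hc i
    have e4 := hgap i
    nlinarith
  have hoff : ∀ i j, i < j → 10 * |(G i j : ℝ)| ≤ g i * g j / 10 := by
    intro i j hij
    have e1 := hGE i j
    have e2 := ho i j hij.ne
    have e3 : |(G i j : ℝ)| ≤ |(G i j : ℝ) - ∑ k, c k * V k i * V k j| +
        |∑ k, c k * V k i * V k j| := by
      have := abs_add_le ((G i j : ℝ) - ∑ k, c k * V k i * V k j) (∑ k, c k * V k i * V k j)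
      simpa using this
    have e4 : |(a i : ℝ) - a j| ≤ (g i + g j) / 2 + (l j.castSucc - l i.succ) + 2 := by
      have f1 := abs_le.mp (ha i)
      have f2 := abs_le.mp (ha j)
      have f3 := hg i
      have f4 := hg j
      have f5 : 0 ≤ l j.castSucc - l i.succ := by
        have : l i.succ ≤ l j.castSucc := by
          apply hl.monotone
          rw [Fin.le_def, Fin.val_succ, Fin.val_castSucc]
          exact hij
        linarith
      rw [abs_le]
      constructor
      · linarith [f1.1, f1.2, f2.1, f2.2, hgap i, hgap j]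
      · linarith [f1.1, f1.2, f2.1, f2.2, hgap i, hgap j]
    have e5 := hsep i j hij
    have e6 := hgap i
    have e7 := hgap j
    have e8 : 2000 * (g i + g j) ≤ 2 * (g i * g j) := by nlinarith
    linarith
  have hoff' : ∀ i j, i ≠ j → 10 * |(G i j : ℝ)| ≤ g i * g j / 10 := by
    intro i j hij
    rcases lt_or_gt_of_ne hij with h | h
    · exact hoff i j h
    · rw [← hG.apply i j, mul_comm (g i)]
      exact hoff j i h
  apply sos_of G hG
  · intro i
    have e1 := hdiag i
    have e2 := hgap i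
    have : (100 : ℝ) ≤ (G i i : ℝ) := by nlinarith
    exact_mod_cast this
  · intro i j hij
    have e1 := hdiag i
    have e2 := hdiag j
    have e3 := hoff' i j hij
    have e4 := hgap i
    have e5 := hgap j
    have f1 : (10 * |(G i j : ℝ)|) ^ 2 ≤ (g i * g j / 10) ^ 2 :=
      pow_le_pow_left₀ (by positivity) e3 2
    have f2 : (g i ^ 2 / 10) * (g j ^ 2 / 10) ≤ (G i i : ℝ) * G j j :=
      mul_le_mul e1 e2 (by positivity) (le_trans (by positivity) e1)
    have f3 : (100 : ℝ) * (G i j : ℝ) ^ 2 ≤ (G i i : ℝ) * G j j := by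
      have : (10 * |(G i j : ℝ)|) ^ 2 = 100 * (G i j : ℝ) ^ 2 := by
        rw [mul_pow, sq_abs]
        norm_num
      rw [this] at f1
      calc (100 : ℝ) * (G i j : ℝ) ^ 2 ≤ (g i * g j / 10) ^ 2 := f1
        _ = (g i ^ 2 / 10) * (g j ^ 2 / 10) := by ring
        _ ≤ _ := f2
    exact_mod_cast f3

/-- midpoints of different gaps are far apart -/
theorem mid_sub {l : Fin 5 → ℝ} (hl : StrictMono l) (g : Fin 4 → ℝ)
    (hg : ∀ i : Fin 4, g i = l i.succ - l i.castSucc) {i j : Fin 4} (hij : i < j) :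
    (g i + g j) / 2 ≤ (l j.castSucc + l j.succ) / 2 - (l i.castSucc + l i.succ) / 2 := by
  have : l i.succ ≤ l j.castSucc := by
    apply hl.monotone
    rw [Fin.le_def, Fin.val_succ, Fin.val_castSucc]
    exact hij
  have f3 := hg i
  have f4 := hg j
  linarith

theorem separated {P : ℤ[X]} (hP : P.Monic) {l : Fin 5 → ℝ}
    (hl : StrictMono l) (hroots : P.map (Int.castRingHom ℝ) = ∏ i, (X - C (l i)))
    (hgap : ∀ i : Fin 4, 2000 ≤ l i.succ - l i.castSucc)
    (hsep : ∀ i j : Fin 4, i < j → 1000 * (l j.castSucc - l i.succ) ≤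
      (l i.succ - l i.castSucc) * (l j.succ - l j.castSucc)) : IsMP P := by
  have hP5 : P.natDegree = 5 := by
    have h1 : (P.map (Int.castRingHom ℝ)).natDegree = 5 := by
      rw [hroots, natDegree_prod_of_monic _ _ (fun i _ => monic_X_sub_C _)]
      simp
    rwa [hP.natDegree_map] at h1
  obtain ⟨g, hg⟩ : ∃ g : Fin 4 → ℝ, ∀ i, g i = l i.succ - l i.castSucc := ⟨_, fun _ => rfl⟩
  have hgap' : ∀ i, 2000 ≤ g i := fun i => by rw [hg]; exact hgap i
  have hsep' : ∀ i j : Fin 4, i < j → 1000 * (l j.castSucc - l i.succ) ≤ g i * g j :=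
    fun i j hij => by rw [hg, hg]; exact hsep i j hij
  obtain ⟨a, h0, h1, h2, h3, ha⟩ := exists_a (fun i => (l i.castSucc + l i.succ) / 2)
  have ha10 : ∀ i j, i < j → a i + 10 ≤ a j := by
    intro i j hij
    have e1 := abs_le.mp (ha i)
    have e2 := abs_le.mp (ha j)
    have e3 := mid_sub hl g hg hij
    have e4 := hgap' i
    have e5 := hgap' j
    have : (a i : ℝ) + 10 ≤ a j := by linarith [e1.2, e2.1]
    exact_mod_cast this
  obtain ⟨μ, V, hE⟩ := exists_eig a ha10
  have hμ3 : ∀ i : Fin 4, |μ i - (l i.castSucc + l i.succ) / 2| ≤ 3 := by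
    intro i
    have e1 := abs_le.mp (ha i)
    have e2 := abs_le.mp (hE.near i)
    rw [abs_le]
    constructor <;> linarith [e1.1, e1.2, e2.1, e2.2]
  have hμlt : ∀ i j, i < j → μ i < μ j := by
    intro i j hij
    have e1 := abs_le.mp (hμ3 i)
    have e2 := abs_le.mp (hμ3 j)
    have e3 := mid_sub hl g hg hij
    linarith [e1.2, e2.1, hgap' i, hgap' j]
  have hμi : Function.Injective μ := by
    intro i j hij
    rcases lt_trichotomy i j with h | h | h
    · exact absurd hij (hμlt i j h).ne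
    · exact h
    · exact absurd hij (hμlt j i h).ne'
  have hQm : (pathM a).charpoly.Monic := Matrix.charpoly_monic _
  have hQ4 : (pathM a).charpoly.natDegree = 4 := by
    rw [Matrix.charpoly_natDegree_eq_dim]
    simp
  obtain ⟨d, hd⟩ := exists_d hP hP5 hQm hQ4
  obtain ⟨G₁, hG₁, hG₁t⟩ := exists_sol a h0 h1 h2 h3 _ hd
  obtain ⟨c, hc⟩ : ∃ c : Fin 4 → ℝ, ∀ i, c i = (V * rM G₁ * V.transpose) i i :=
    ⟨_, fun _ => rfl⟩
  have haP : ∀ x : ℝ, aeval x P = ∏ j, (x - l j) := by
    intro x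
    have : aeval x P = (P.map (Int.castRingHom ℝ)).eval x := by
      rw [eval_map, aeval_def]
      rfl
    rw [this, hroots, eval_prod]
    simp
  have hcc : ∀ i, (∏ j ∈ Finset.univ.erase i, (μ i - μ j)) * c i = -∏ j, (μ i - l j) := by
    intro i
    rw [hc, ← aeval_tra hE G₁ i, hG₁t, map_sub, map_mul, aeval_charpoly hE, haP,
      Finset.prod_eq_zero (Finset.mem_univ i) (sub_self _)]
    ring
  have hcb := coef_bounds l μ c g hg (fun i => by linarith [hgap' i]) hμ3 hcc
  have hc0 : ∀ i, 0 ≤ c i := fun i => by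
    have := (hcb i).1
    have := hgap' i
    nlinarith
  have hs : ∀ k j, j ≠ k → |V k j| * g k ≤ 4 := by
    intro k j hjk
    have e1 := hE.small k j hjk.symm
    have e2 : g k / 2 ≤ |(a j : ℝ) - μ k| := by
      have f1 := abs_le.mp (ha j)
      have f2 := abs_le.mp (hμ3 k)
      rcases lt_or_gt_of_ne hjk with h | h
      · have f3 := mid_sub hl g hg h
        rw [le_abs]
        right
        linarith [f1.1, f1.2, f2.1, f2.2, hgap' j]
      · have f3 := mid_sub hl g hg h
        rw [le_abs]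
        left
        linarith [f1.1, f1.2, f2.1, f2.2, hgap' j]
    have e3 : |V k j| * (g k / 2) ≤ |V k j| * |(a j : ℝ) - μ k| :=
      mul_le_mul_of_nonneg_left e2 (abs_nonneg _)
    linarith
  obtain ⟨G, hG, hGt, hGE⟩ := exists_round hE hμi G₁ hG₁
  have hSoS : SoS G := by
    refine sos_of_bounds hl g c hg hgap' hsep' ha (fun i => (hcb i).1)
      (diag_lower V hE.orth g c (fun k => by linarith [hgap' k]) hs hc0)
      (fun i j hij => off_upper V hE.orth g c (fun k => by linarith [hgap' k]) hs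
        (fun k => ⟨hc0 k, (hcb k).2⟩) hij) hG ?_
    intro i j
    simpa only [hc] using hGE i j
  have hA : (pathM a).IsSymm := by
    ext i j
    fin_cases i <;> fin_cases j <;> rfl
  obtain ⟨s, n, M, hs0, hM, hMc⟩ := exists_bordered (pathM a) hA d hSoS
  have hfin : (X - C d) * (pathM a).charpoly - tra (pathM a) G = P := by
    rw [hGt, hG₁t]
    ring
  rw [hfin] at hMc
  refine isMP_of_charpoly M hM hP ?_ hs0 hMc
  have hsepR : (P.map (Int.castRingHom ℝ)).Separable := by
    rw [hroots]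
    exact separable_prod_X_sub_C_iff.mpr hl.injective
  have hcomp : P.map (Int.castRingHom ℝ) = (P.map (Int.castRingHom ℚ)).map (algebraMap ℚ ℝ) := by
    rw [Polynomial.map_map]
    congr 1
  rw [hcomp] at hsepR
  exact (separable_map (algebraMap ℚ ℝ)).mp hsepR

end Pool.Agent.Helper28.SQ
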